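import Mathlib
import Pool.Agent.H762R2.RtD
import Pool.Agent.W751.CV.Stm

/-!
# Volume of the non-hyperbolic rational maps: definitions and statements of the parts

Project RV (MP_8f2e1c_an). Rational maps `α ∏ (w - z i) / ∏ (1 - q i w)` of degree `N` with
`‖z i‖ ≤ ρ`, `‖q i‖ ≤ σ`, `ρ σ < 1` (zeros in a disc, poles outside a larger concentric disc).
-/

set_option autoImplicit false

open Polynomial Filter Topology MeasureTheory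

namespace Pool.Agent.W751.RV

open Pool.Agent.W751.CD Pool.Agent.W751.CV

/-- the polynomial `∏ (1 - q i X)` -/
noncomputable def Q {N : ℕ} (q : Fin N → ℂ) : ℂ[X] := ∏ i, (1 - C (q i) * X)

/-- critical point of `P z / Q q` (zero of the numerator of the derivative) -/
def Crit {N : ℕ} (z q : Fin N → ℂ) (c : ℂ) : Prop :=
  (derivative (P z)).eval c * (Q q).eval c = (P z).eval c * (derivative (Q q)).eval c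

/-- the denominator with the coefficients `b` -/
noncomputable def den {N : ℕ} (b : Fin N → ℂ) : ℂ[X] := 1 + ∑ k : Fin N, C (b k) * X ^ (N - (k : ℕ))

/-- the product measure on the zeros and the inverses of the poles -/
noncomputable def mm (ρ σ : ℝ) (N : ℕ) : Measure ((Fin N → ℂ) × (Fin N → ℂ)) :=
  (mu ρ N).prod (mu σ N)

/-- (QE) Elementary facts. -/
def S_QE : Prop :=
  (∀ (N : ℕ) (q : Fin N → ℂ) (w : ℂ), (Q q).eval w = ∏ i, (1 - q i * w)) ∧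
  (∀ (N : ℕ) (q : Fin N → ℂ) (w : ℂ), w ≠ 0 → (Q q).eval w = w ^ N * (P q).eval w⁻¹) ∧
  (∀ (N : ℕ) (q : Fin N → ℂ), den (Phi q) = Q q) ∧
  (∀ (N : ℕ) (σ : ℝ) (b : Fin N → ℂ), b ∈ Om 0 σ N →
    ∃ q : Fin N → ℂ, (∀ i, ‖q i‖ ≤ σ) ∧ poly b = P q ∧ den b = Q q)

/-- (W) No critical points between the two discs. -/
def S_W : Prop := ∀ (N : ℕ) (ρ σ : ℝ) (z q : Fin N → ℂ), 1 ≤ N → 0 < ρ → 0 < σ → ρ * σ < 1 →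
  (∀ i, ‖z i‖ ≤ ρ) → (∀ i, ‖q i‖ ≤ σ) → ∀ c : ℂ, ρ < ‖c‖ → ‖c‖ * σ < 1 → ¬ Crit z q c

/-- (DETA) The dynamics: two trapping discs, around zero and around infinity. -/
def S_DETA : Prop := S_W → ∀ (N : ℕ) (ρ σ s t : ℝ) (z q : Fin N → ℂ) (α : ℂ), 1 ≤ N → 0 < ρ →
  0 < σ → ρ * σ < 1 → (∀ i, ‖z i‖ ≤ ρ) → (∀ i, ‖q i‖ ≤ σ) → α ≠ 0 → ρ ≤ s → σ ≤ t →
  (∀ w : ℂ, ‖w‖ ≤ s → ‖α * (P z).eval w‖ < s / 4 * ‖(Q q).eval w‖) →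
  (∀ x : ℂ, ‖x‖ ≤ t → ‖(P q).eval x‖ < t / 4 * ‖α * (Q z).eval x‖) →
    Pool.Agent.H762R2.Rt.Hyp (C α * P z) (Q q)

/-- (DETB) The dynamics: a trapping disc around infinity. -/
def S_DETB : Prop := S_W → ∀ (N : ℕ) (ρ σ t : ℝ) (z q : Fin N → ℂ) (α : ℂ), 1 ≤ N → 0 < ρ →
  0 < σ → ρ * σ < 1 → (∀ i, ‖z i‖ ≤ ρ) → (∀ i, ‖q i‖ ≤ σ) → α ≠ 0 → σ ≤ t →
  (∀ x : ℂ, ‖x‖ ≤ t → ‖(P q).eval x‖ < t / 4 * ‖α * (Q z).eval x‖) →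
  (∀ c : ℂ, ‖c‖ ≤ ρ → Crit z q c → ‖(Q q).eval c‖ < t / 4 * ‖α * (P z).eval c‖) →
    Pool.Agent.H762R2.Rt.Hyp (C α * P z) (Q q)

/-- (DETC) The dynamics: a trapping disc around zero. -/
def S_DETC : Prop := S_W → ∀ (N : ℕ) (ρ σ s : ℝ) (z q : Fin N → ℂ) (α : ℂ), 1 ≤ N → 0 < ρ →
  0 < σ → ρ * σ < 1 → (∀ i, ‖z i‖ ≤ ρ) → (∀ i, ‖q i‖ ≤ σ) → α ≠ 0 → ρ ≤ s →
  (∀ w : ℂ, ‖w‖ ≤ s → ‖α * (P z).eval w‖ < s / 4 * ‖(Q q).eval w‖) →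
  (∀ x : ℂ, ‖x‖ ≤ σ → Crit q z x → ‖α * (Q z).eval x‖ < s / 4 * ‖(P q).eval x‖) →
    Pool.Agent.H762R2.Rt.Hyp (C α * P z) (Q q)

/-! ### Moments -/

/-- conclusion of `S_NQ` -/
def NQc : Prop := ∀ (σ : ℝ) (N : ℕ) (w : ℂ), 0 < σ → 1 ≤ N → ‖w‖ * σ < 1 →
  ∫⁻ q, ENNReal.ofReal ((‖(Q q).eval w‖ ^ 2)⁻¹) ∂(mu σ N) ≤
    ENNReal.ofReal (N / (1 - ‖w‖ * σ) ^ 2 * ZN σ N)

/-- (NQ) Negative moment of the denominator. -/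
def S_NQ : Prop := ZNc → NEGOUTc → S_QE → NQc

/-- conclusion of `S_SQ` -/
def SQc : Prop := ∀ σ r : ℝ, 0 < σ → 0 < r → r * σ < 1 → ∃ K : ℝ, 0 < K ∧ ∀ N : ℕ, 1 ≤ N →
  ∀ ε : ℝ, 0 < ε → mu σ N {q | ∃ w : ℂ, ‖w‖ ≤ r ∧ ‖(Q q).eval w‖ < ε} ≤
    ENNReal.ofReal (K * N * ε ^ 2 * ZN σ N)

/-- (SQ) The denominator is not small. -/
def S_SQ : Prop := ZNc → S_QE → NQc → SQc

/-- conclusion of `S_UQ` -/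
def UQc : Prop := ∀ σ r : ℝ, 0 < σ → 0 < r → r * σ ≤ 1 → ∀ N : ℕ, 1 ≤ N → ∀ η : ℝ, 0 < η →
  mu σ N {q | ∃ w : ℂ, ‖w‖ ≤ r ∧ η < ‖(Q q).eval w‖} ≤
    ENNReal.ofReal ((N + 1) ^ 2 / η ^ 2 * ZN σ N)

/-- (UQ) The denominator is not large. -/
def S_UQ : Prop := CBc → S_QE → UQc

/-- conclusion of `S_SM` -/
def SMc : Prop := ∀ ρ σ s κ : ℝ, 0 < ρ → 0 < σ → ρ ≤ s → s < 1 → s * σ < 1 → 0 < κ →
  ∃ K θ : ℝ, 0 < K ∧ 0 < θ ∧ θ < 1 ∧ ∀ N : ℕ, 1 ≤ N →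
    mm ρ σ N {x | ∃ w : ℂ, ‖w‖ ≤ s ∧ κ * ‖(Q x.2).eval w‖ ≤ ‖(P x.1).eval w‖} ≤
      ENNReal.ofReal (K * θ ^ N * (ZN ρ N * ZN σ N))

/-- (SM) The map is small on a disc of radius `s < 1`. -/
def S_SM : Prop := ZNc → CBc → SQc → SMc

/-- (SF) A small critical value forces a small disc of small values. -/
def S_SF : Prop := ∀ (ρ δ S R : ℝ) (N : ℕ) (z q : Fin N → ℂ) (c : ℂ), 0 < ρ → 0 < δ → 0 < R →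
  R ≤ 2 * S → ‖c‖ ≤ ρ →
  (∀ w : ℂ, ‖w‖ ≤ ρ + δ → (Q q).eval w ≠ 0 ∧ ‖(P z).eval w‖ ≤ S * ‖(Q q).eval w‖) →
  Crit z q c → ‖(P z).eval c‖ ≤ R * ‖(Q q).eval c‖ →
    ENNReal.ofReal (Real.pi * R * δ ^ 2 / (2 * S)) ≤
      volume {w : ℂ | ‖w‖ ≤ ρ + δ ∧ ‖(P z).eval w‖ ≤ 2 * R * ‖(Q q).eval w‖}

/-- conclusion of `S_LC` -/
def LCc : Prop := ∀ ρ σ κ : ℝ, 1 < ρ → 0 < σ → ρ * σ < 1 → 1 ≤ κ →
  ∃ K θ : ℝ, 0 < K ∧ 0 < θ ∧ θ < 1 ∧ ∀ N : ℕ, 1 ≤ N →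
    mm ρ σ N {x | ∃ c : ℂ, ‖c‖ ≤ ρ ∧ Crit x.1 x.2 c ∧
      ‖(P x.1).eval c‖ ≤ κ * ‖(Q x.2).eval c‖} ≤
      ENNReal.ofReal (K * θ ^ N * (ZN ρ N * ZN σ N))

/-- (LC) The critical values from the disc of radius `ρ > 1` are large. -/
def S_LC : Prop := ZNc → CBc → AREAc → SQc → UQc → S_SF → LCc

/-! ### Coefficients -/

/-- conclusion of `S_COEF2` -/
def COEF2c : Prop := ∀ (N : ℕ) (ρ σ : ℝ), 0 < ρ → 0 < σ →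
  ∀ B : Set ((Fin N → ℂ) × (Fin N → ℂ)), MeasurableSet B →
  ((N.factorial : ENNReal) * N.factorial) * volume (B ∩ (Om 0 ρ N ×ˢ Om 0 σ N)) =
    mm ρ σ N {x | (Phi x.1, Phi x.2) ∈ B}

/-- (COEF2) Lebesgue measure on pairs of coefficient vectors. -/
def S_COEF2 : Prop := ZNc → COEFc → COEF2c

/-- (MEAS2) Three closed sets of pairs of coefficient vectors. -/
def S_MEAS2 : Prop := ∀ (N : ℕ) (r κ : ℝ),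
  MeasurableSet {x : (Fin N → ℂ) × (Fin N → ℂ) | ∃ w : ℂ, ‖w‖ ≤ r ∧
    κ * ‖(den x.2).eval w‖ ≤ ‖(poly x.1).eval w‖} ∧
  MeasurableSet {x : (Fin N → ℂ) × (Fin N → ℂ) | ∃ w : ℂ, ‖w‖ ≤ r ∧
    ‖(poly x.1).eval w‖ ≤ κ * ‖(den x.2).eval w‖} ∧
  MeasurableSet {x : (Fin N → ℂ) × (Fin N → ℂ) | ∃ c : ℂ, ‖c‖ ≤ r ∧
    (derivative (poly x.1)).eval c * (den x.2).eval c =
      (poly x.1).eval c * (derivative (den x.2)).eval c ∧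
    ‖(poly x.1).eval c‖ ≤ κ * ‖(den x.2).eval c‖}

end Pool.Agent.W751.RV
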