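import Mathlib
import Pool.Agent.W751.RV.Stm

/-!
# The poles in terms of the coefficients
-/

set_option autoImplicit false

open Polynomial Filter Topology MeasureTheory

namespace Pool.Agent.W751.RV

open Pool.Agent.W751.CD Pool.Agent.W751.CV

theorem den_eval {N : ℕ} (b : Fin N → ℂ) {x : ℂ} (hx : x ≠ 0) :
    (den b).eval x = x ^ N * (poly b).eval x⁻¹ := by
  unfold den poly
  simp only [eval_add, eval_one, eval_pow, eval_X, eval_finsetSum, eval_mul, eval_C]
  rw [mul_add, Finset.mul_sum, ← mul_pow, mul_inv_cancel₀ hx, one_pow]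
  congr 1
  refine Finset.sum_congr rfl fun k _ => ?_
  have hk : (k : ℕ) ≤ N := k.2.le
  have h : x ^ N = x ^ (N - (k : ℕ)) * x ^ (k : ℕ) := by
    rw [← pow_add, Nat.sub_add_cancel hk]
  rw [h, inv_pow]
  field_simp

theorem den_zero {N : ℕ} (b : Fin N → ℂ) : (den b).eval 0 = 1 := by
  unfold den
  simp only [eval_add, eval_one, eval_pow, eval_X, eval_finsetSum, eval_mul, eval_C]
  rw [Finset.sum_eq_zero, add_zero]
  intro k _
  have hk : N - (k : ℕ) ≠ 0 := by have := k.2; omega
  rw [zero_pow hk, mul_zero]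

theorem mem_Om_iff_den {N : ℕ} (b : Fin N → ℂ) {R : ℝ} (hR : 0 < R) :
    b ∈ Om 0 (1 / R) N ↔ ∀ x : ℂ, (den b).eval x = 0 → R ≤ ‖x‖ := by
  unfold Om
  constructor
  · intro h x hx
    have hx0 : x ≠ 0 := by
      rintro rfl
      rw [den_zero] at hx
      exact one_ne_zero hx
    rw [den_eval b hx0] at hx
    have h1 : (poly b).eval x⁻¹ = 0 := by
      rcases mul_eq_zero.1 hx with h2 | h2
      · exact absurd h2 (pow_ne_zero _ hx0)
      · exact h2
    have h2 := h x⁻¹ h1
    rw [sub_zero, norm_inv, one_div] at h2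
    exact (inv_le_inv₀ (norm_pos_iff.2 hx0) hR).1 h2
  · intro h x hx
    rw [sub_zero]
    by_contra hc
    push Not at hc
    have hx0 : x ≠ 0 := by
      rintro rfl
      rw [norm_zero] at hc
      exact absurd hc (not_lt.2 (by positivity))
    have h1 : (den b).eval x⁻¹ = 0 := by
      rw [den_eval b (inv_ne_zero hx0), inv_inv, hx, mul_zero]
    have h2 := h _ h1
    rw [norm_inv] at h2
    rw [one_div] at hc
    have h3 := (inv_lt_comm₀ hR (norm_pos_iff.2 hx0)).1 hc
    exact absurd h2 (not_le.2 h3)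

end Pool.Agent.W751.RV
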