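import Mathlib
import Pool.Agent.W751.RV.Stm
import Pool.Agent.W751.CV.Fin

/-!
# Volume of the non-hyperbolic rational maps: the assembly
-/

set_option autoImplicit false

open Polynomial Filter Topology MeasureTheory

namespace Pool.Agent.W751.RV

open Pool.Agent.W751.CD Pool.Agent.W751.CV

/-- the bad set of pairs of coefficient vectors -/
def BadP (ρ σ A : ℝ) (N : ℕ) : Set ((Fin N → ℂ) × (Fin N → ℂ)) :=
  {x | x.1 ∈ Om 0 ρ N ∧ x.2 ∈ Om 0 σ N ∧ ∃ α : ℂ, 1 / A ≤ ‖α‖ ∧ ‖α‖ ≤ A ∧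
    ¬ Pool.Agent.H762R2.Rt.Hyp (C α * poly x.1) (den x.2)}

/-- first closed set -/
def T1 (N : ℕ) (r κ : ℝ) : Set ((Fin N → ℂ) × (Fin N → ℂ)) :=
  {x | ∃ w : ℂ, ‖w‖ ≤ r ∧ κ * ‖(den x.2).eval w‖ ≤ ‖(poly x.1).eval w‖}

/-- third closed set -/
def T3 (N : ℕ) (r κ : ℝ) : Set ((Fin N → ℂ) × (Fin N → ℂ)) :=
  {x | ∃ c : ℂ, ‖c‖ ≤ r ∧
    (derivative (poly x.1)).eval c * (den x.2).eval c =
      (poly x.1).eval c * (derivative (den x.2)).eval c ∧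
    ‖(poly x.1).eval c‖ ≤ κ * ‖(den x.2).eval c‖}

theorem mm_univ (hZN : ZNc) {ρ σ : ℝ} (hρ : 0 < ρ) (hσ : 0 < σ) (N : ℕ) :
    mm ρ σ N Set.univ = ENNReal.ofReal (ZN ρ N * ZN σ N) := by
  have h1 := (hZN ρ N hρ).1
  have h2 := (hZN σ N hσ).1
  have : IsFiniteMeasure (mu ρ N) := ⟨by rw [h1]; exact ENNReal.ofReal_lt_top⟩
  have : IsFiniteMeasure (mu σ N) := ⟨by rw [h2]; exact ENNReal.ofReal_lt_top⟩
  unfold mm
  rw [← Set.univ_prod_univ, Measure.prod_prod, h1, h2,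
    ENNReal.ofReal_mul (ZN_pos hρ N).le]

theorem mm_swap (hZN : ZNc) {ρ σ : ℝ} (hρ : 0 < ρ) (hσ : 0 < σ) (N : ℕ)
    (S : Set ((Fin N → ℂ) × (Fin N → ℂ))) :
    mm ρ σ N (Prod.swap ⁻¹' S) = mm σ ρ N S := by
  have h1 := (hZN ρ N hρ).1
  have h2 := (hZN σ N hσ).1
  have : IsFiniteMeasure (mu ρ N) := ⟨by rw [h1]; exact ENNReal.ofReal_lt_top⟩
  have : IsFiniteMeasure (mu σ N) := ⟨by rw [h2]; exact ENNReal.ofReal_lt_top⟩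
  unfold mm
  have h := (Measure.measurePreserving_swap (μ := mu ρ N) (ν := mu σ N))
  exact h.measure_preimage_emb (MeasurableEquiv.prodComm.measurableEmbedding) S

theorem vol_le2 (hCOEF2 : COEF2c) (hZN : ZNc) {N : ℕ} {ρ σ b : ℝ} (hρ : 0 < ρ) (hσ : 0 < σ)
    (hb : 0 ≤ b) {B : Set ((Fin N → ℂ) × (Fin N → ℂ))} (hB : MeasurableSet B)
    (h : mm ρ σ N {x | (Phi x.1, Phi x.2) ∈ B} ≤ ENNReal.ofReal (b * (ZN ρ N * ZN σ N))) :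
    volume (B ∩ (Om 0 ρ N ×ˢ Om 0 σ N)) ≤
      ENNReal.ofReal b * volume (Om 0 ρ N ×ˢ Om 0 σ N : Set ((Fin N → ℂ) × (Fin N → ℂ))) := by
  have h1 := hCOEF2 N ρ σ hρ hσ B hB
  have h2 := hCOEF2 N ρ σ hρ hσ Set.univ MeasurableSet.univ
  simp only [Set.mem_univ, Set.univ_inter] at h2
  have h3 : mm ρ σ N {x | True} = ENNReal.ofReal (ZN ρ N * ZN σ N) := by
    have := mm_univ hZN hρ hσ N
    simpa using this
  rw [h3] at h2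
  have hN : ((N.factorial : ENNReal) * N.factorial) ≠ 0 := by
    simp [Nat.factorial_ne_zero]
  have hN' : ((N.factorial : ENNReal) * N.factorial) ≠ ⊤ :=
    ENNReal.mul_ne_top (ENNReal.natCast_ne_top _) (ENNReal.natCast_ne_top _)
  have h4 : ((N.factorial : ENNReal) * N.factorial) * volume (B ∩ (Om 0 ρ N ×ˢ Om 0 σ N)) ≤
      ((N.factorial : ENNReal) * N.factorial) * (ENNReal.ofReal b *
        volume (Om 0 ρ N ×ˢ Om 0 σ N : Set ((Fin N → ℂ) × (Fin N → ℂ)))) := by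
    rw [h1]
    refine h.trans ?_
    rw [ENNReal.ofReal_mul hb, ← h2]
    apply le_of_eq
    ring
  exact (ENNReal.mul_le_mul_iff_right hN hN').1 h4

theorem vol_Om2 (hCOEF2 : COEF2c) (hZN : ZNc) {N : ℕ} {ρ σ : ℝ} (hρ : 0 < ρ) (hσ : 0 < σ) :
    volume (Om 0 ρ N ×ˢ Om 0 σ N : Set ((Fin N → ℂ) × (Fin N → ℂ))) ≠ 0 ∧
    volume (Om 0 ρ N ×ˢ Om 0 σ N : Set ((Fin N → ℂ) × (Fin N → ℂ))) ≠ ⊤ := by
  have h2 := hCOEF2 N ρ σ hρ hσ Set.univ MeasurableSet.univ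
  simp only [Set.mem_univ, Set.univ_inter] at h2
  have h3 : mm ρ σ N {x | True} = ENNReal.ofReal (ZN ρ N * ZN σ N) := by
    have := mm_univ hZN hρ hσ N
    simpa using this
  rw [h3] at h2
  have hZ : 0 < ZN ρ N * ZN σ N := mul_pos (ZN_pos hρ N) (ZN_pos hσ N)
  constructor
  · intro h0
    rw [h0, mul_zero] at h2
    exact (ENNReal.ofReal_pos.2 hZ).ne h2
  · intro h0
    rw [h0, ENNReal.mul_top (by simp [Nat.factorial_ne_zero])] at h2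
    exact ENNReal.ofReal_ne_top h2.symm

/-- combination of two bad sets -/
theorem combine (hCOEF2 : COEF2c) (hZN : ZNc) {ρ σ A : ℝ} (hρ : 0 < ρ) (hσ : 0 < σ)
    (B₁ B₂ : (N : ℕ) → Set ((Fin N → ℂ) × (Fin N → ℂ))) (h1m : ∀ N, MeasurableSet (B₁ N))
    (h2m : ∀ N, MeasurableSet (B₂ N))
    (hsub : ∀ N, 1 ≤ N → BadP ρ σ A N ⊆ (B₁ N ∪ B₂ N) ∩ (Om 0 ρ N ×ˢ Om 0 σ N))
    {K₁ θ₁ K₂ θ₂ : ℝ} (hK₁ : 0 < K₁) (hθ₁ : 0 < θ₁) (hθ₁' : θ₁ < 1) (hK₂ : 0 < K₂) (hθ₂ : 0 < θ₂)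
    (hθ₂' : θ₂ < 1)
    (h1 : ∀ N : ℕ, 1 ≤ N → mm ρ σ N {x | (Phi x.1, Phi x.2) ∈ B₁ N} ≤
      ENNReal.ofReal (K₁ * θ₁ ^ N * (ZN ρ N * ZN σ N)))
    (h2 : ∀ N : ℕ, 1 ≤ N → mm ρ σ N {x | (Phi x.1, Phi x.2) ∈ B₂ N} ≤
      ENNReal.ofReal (K₂ * θ₂ ^ N * (ZN ρ N * ZN σ N))) :
    ∃ K θ : ℝ, 0 < K ∧ 0 < θ ∧ θ < 1 ∧ ∀ N : ℕ, 1 ≤ N → volume (BadP ρ σ A N) ≤
      ENNReal.ofReal (K * θ ^ N) *
        volume (Om 0 ρ N ×ˢ Om 0 σ N : Set ((Fin N → ℂ) × (Fin N → ℂ))) := by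
  refine ⟨K₁ + K₂, max θ₁ θ₂, by positivity, hθ₁.trans_le (le_max_left _ _), max_lt hθ₁' hθ₂',
    fun N hN => ?_⟩
  have hm0 : 0 < max θ₁ θ₂ := hθ₁.trans_le (le_max_left _ _)
  have hZ : 0 < ZN ρ N * ZN σ N := mul_pos (ZN_pos hρ N) (ZN_pos hσ N)
  refine (measure_mono (hsub N hN)).trans (vol_le2 hCOEF2 hZN hρ hσ (by positivity)
    ((h1m N).union (h2m N)) ?_)
  have e : {x : (Fin N → ℂ) × (Fin N → ℂ) | (Phi x.1, Phi x.2) ∈ B₁ N ∪ B₂ N} ⊆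
      {x | (Phi x.1, Phi x.2) ∈ B₁ N} ∪ {x | (Phi x.1, Phi x.2) ∈ B₂ N} := fun x hx => hx
  refine (measure_mono e).trans ((measure_union_le _ _).trans ((add_le_add (h1 N hN)
    (h2 N hN)).trans ?_))
  rw [← ENNReal.ofReal_add (by positivity) (by positivity)]
  apply ENNReal.ofReal_le_ofReal
  have e1 : θ₁ ^ N ≤ max θ₁ θ₂ ^ N := pow_le_pow_left₀ hθ₁.le (le_max_left _ _) N
  have e2 : θ₂ ^ N ≤ max θ₁ θ₂ ^ N := pow_le_pow_left₀ hθ₂.le (le_max_right _ _) N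
  calc K₁ * θ₁ ^ N * (ZN ρ N * ZN σ N) + K₂ * θ₂ ^ N * (ZN ρ N * ZN σ N) =
        (K₁ * θ₁ ^ N + K₂ * θ₂ ^ N) * (ZN ρ N * ZN σ N) := by ring
    _ ≤ (K₁ * max θ₁ θ₂ ^ N + K₂ * max θ₁ θ₂ ^ N) * (ZN ρ N * ZN σ N) := by gcongr
    _ = _ := by ring

variable (hQE : S_QE) (hPOLY : S_POLY)

include hQE hPOLY in
theorem t1_pre (N : ℕ) (r κ : ℝ) : {x : (Fin N → ℂ) × (Fin N → ℂ) | (Phi x.1, Phi x.2) ∈ T1 N r κ} =
    {x | ∃ w : ℂ, ‖w‖ ≤ r ∧ κ * ‖(Q x.2).eval w‖ ≤ ‖(P x.1).eval w‖} := by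
  ext x
  simp only [T1, Set.mem_ofPred_eq, hPOLY.1, hQE.2.2.1]

include hQE hPOLY in
theorem t3_pre (N : ℕ) (r κ : ℝ) : {x : (Fin N → ℂ) × (Fin N → ℂ) | (Phi x.1, Phi x.2) ∈ T3 N r κ} =
    {x | ∃ c : ℂ, ‖c‖ ≤ r ∧ Crit x.1 x.2 c ∧ ‖(P x.1).eval c‖ ≤ κ * ‖(Q x.2).eval c‖} := by
  ext x
  simp only [T3, Crit, Set.mem_ofPred_eq, hPOLY.1, hQE.2.2.1]

/-- case A -/
theorem caseA (hMEAS : S_MEAS2) (hCOEF2 : COEF2c) (hZN : ZNc) (hW : S_W) (hDET : S_DETA)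
    (hSM : SMc) (hQE : S_QE) (hPOLY : S_POLY) {ρ σ A : ℝ} (hρ : 0 < ρ) (hσ : 0 < σ)
    (hρσ : ρ * σ < 1) (hρ1 : ρ < 1) (hσ1 : σ < 1) (hA : 1 ≤ A) :
    ∃ K θ : ℝ, 0 < K ∧ 0 < θ ∧ θ < 1 ∧ ∀ N : ℕ, 1 ≤ N → volume (BadP ρ σ A N) ≤
      ENNReal.ofReal (K * θ ^ N) *
        volume (Om 0 ρ N ×ˢ Om 0 σ N : Set ((Fin N → ℂ) × (Fin N → ℂ))) := by
  have hA0 : 0 < A := by linarith
  obtain ⟨s, hs⟩ : ∃ s, s = (1 + ρ) / 2 := ⟨_, rfl⟩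
  obtain ⟨t, ht⟩ : ∃ t, t = (1 + σ) / 2 := ⟨_, rfl⟩
  have hs1 : s < 1 := by rw [hs]; linarith
  have ht1 : t < 1 := by rw [ht]; linarith
  have hρs : ρ ≤ s := by rw [hs]; linarith
  have hσt : σ ≤ t := by rw [ht]; linarith
  have hs0 : 0 < s := by linarith
  have ht0 : 0 < t := by linarith
  have hsσ : s * σ < 1 := by nlinarith
  have htρ : t * ρ < 1 := by nlinarith
  obtain ⟨K₁, θ₁, hK₁, hθ₁, hθ₁', h1⟩ := hSM ρ σ s (s / (4 * A)) hρ hσ hρs hs1 hsσ (by positivity)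
  obtain ⟨K₂, θ₂, hK₂, hθ₂, hθ₂', h2⟩ := hSM σ ρ t (t / (4 * A)) hσ hρ hσt ht1 htρ (by positivity)
  refine combine hCOEF2 hZN hρ hσ (fun N => T1 N s (s / (4 * A)))
    (fun N => Prod.swap ⁻¹' (T1 N t (t / (4 * A)))) (fun N => (hMEAS N s (s / (4 * A))).1)
    (fun N => measurable_swap (hMEAS N t (t / (4 * A))).1) ?_ hK₁ hθ₁ hθ₁' hK₂ hθ₂ hθ₂' ?_ ?_
  · rintro N hN ⟨a, b⟩ ⟨ha, hb, α, hα1, hα2, hn⟩
    refine ⟨?_, ha, hb⟩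
    by_contra hcon
    apply hn
    simp only [Set.mem_union, not_or] at hcon
    obtain ⟨c1, c2⟩ := hcon
    obtain ⟨z, hz, ea, ea'⟩ := hQE.2.2.2 N ρ a ha
    obtain ⟨q, hq, eb, eb'⟩ := hQE.2.2.2 N σ b hb
    have hα0 : α ≠ 0 := by
      rintro rfl
      rw [norm_zero] at hα1
      have : 0 < 1 / A := by positivity
      linarith
    simp only [ea, eb']
    refine hDET hW N ρ σ s t z q α hN hρ hσ hρσ hz hq hα0 hρs hσt ?_ ?_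
    · intro w hw
      have h3 : ‖(P z).eval w‖ < s / (4 * A) * ‖(Q q).eval w‖ := by
        by_contra hb2
        apply c1
        refine ⟨w, hw, ?_⟩
        simp only [ea, eb']
        exact not_lt.1 hb2
      rw [norm_mul]
      calc ‖α‖ * ‖(P z).eval w‖ ≤ A * ‖(P z).eval w‖ := by gcongr
        _ < A * (s / (4 * A) * ‖(Q q).eval w‖) := by gcongr
        _ = s / 4 * ‖(Q q).eval w‖ := by field_simp
    · intro x hx
      have h3 : ‖(P q).eval x‖ < t / (4 * A) * ‖(Q z).eval x‖ := by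
        by_contra hb2
        apply c2
        refine ⟨x, hx, ?_⟩
        simp only [Prod.swap_prod_mk, ea', eb]
        exact not_lt.1 hb2
      rw [norm_mul]
      calc ‖(P q).eval x‖ < t / (4 * A) * ‖(Q z).eval x‖ := h3
        _ = t / 4 * (1 / A * ‖(Q z).eval x‖) := by field_simp
        _ ≤ t / 4 * (‖α‖ * ‖(Q z).eval x‖) := by gcongr
  · intro N hN
    rw [t1_pre hQE hPOLY]
    exact h1 N hN
  · intro N hN
    have e := mm_swap hZN hρ hσ N {x : (Fin N → ℂ) × (Fin N → ℂ) |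
      (Phi x.1, Phi x.2) ∈ T1 N t (t / (4 * A))}
    have e2 : {x : (Fin N → ℂ) × (Fin N → ℂ) |
      (Phi x.1, Phi x.2) ∈ Prod.swap ⁻¹' (T1 N t (t / (4 * A)))} = Prod.swap ⁻¹'
      {x : (Fin N → ℂ) × (Fin N → ℂ) | (Phi x.1, Phi x.2) ∈ T1 N t (t / (4 * A))} := rfl
    rw [e2, e, t1_pre hQE hPOLY]
    refine (h2 N hN).trans (le_of_eq ?_)
    rw [mul_comm (ZN σ N)]

/-- case B -/
theorem caseB (hMEAS : S_MEAS2) (hCOEF2 : COEF2c) (hZN : ZNc) (hW : S_W) (hDET : S_DETB)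
    (hSM : SMc) (hLC : LCc) (hQE : S_QE) (hPOLY : S_POLY) {ρ σ A : ℝ} (hσ : 0 < σ)
    (hρσ : ρ * σ < 1) (hρ1 : 1 < ρ) (hA : 1 ≤ A) :
    ∃ K θ : ℝ, 0 < K ∧ 0 < θ ∧ θ < 1 ∧ ∀ N : ℕ, 1 ≤ N → volume (BadP ρ σ A N) ≤
      ENNReal.ofReal (K * θ ^ N) *
        volume (Om 0 ρ N ×ˢ Om 0 σ N : Set ((Fin N → ℂ) × (Fin N → ℂ))) := by
  have hA0 : 0 < A := by linarith
  have hρ : 0 < ρ := by linarith
  have hσρ : σ < 1 / ρ := by rw [lt_div_iff₀ hρ]; linarith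
  have hρi : 1 / ρ < 1 := by rw [div_lt_one hρ]; exact hρ1
  obtain ⟨t, ht⟩ : ∃ t, t = (σ + 1 / ρ) / 2 := ⟨_, rfl⟩
  have ht1 : t < 1 := by rw [ht]; linarith
  have hσt : σ ≤ t := by rw [ht]; linarith
  have ht0 : 0 < t := by linarith
  have htρ : t * ρ < 1 := by
    have : t < 1 / ρ := by rw [ht]; linarith
    rwa [lt_div_iff₀ hρ] at this
  have hκ : 1 ≤ 4 * A / t := by
    rw [one_le_div ht0]; linarith
  obtain ⟨K₁, θ₁, hK₁, hθ₁, hθ₁', h1⟩ := hLC ρ σ (4 * A / t) hρ1 hσ hρσ hκ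
  obtain ⟨K₂, θ₂, hK₂, hθ₂, hθ₂', h2⟩ := hSM σ ρ t (t / (4 * A)) hσ hρ hσt ht1 htρ (by positivity)
  refine combine hCOEF2 hZN hρ hσ (fun N => T3 N ρ (4 * A / t))
    (fun N => Prod.swap ⁻¹' (T1 N t (t / (4 * A)))) (fun N => (hMEAS N ρ (4 * A / t)).2.2)
    (fun N => measurable_swap (hMEAS N t (t / (4 * A))).1) ?_ hK₁ hθ₁ hθ₁' hK₂ hθ₂ hθ₂' ?_ ?_
  · rintro N hN ⟨a, b⟩ ⟨ha, hb, α, hα1, hα2, hn⟩
    refine ⟨?_, ha, hb⟩
    by_contra hcon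
    apply hn
    simp only [Set.mem_union, not_or] at hcon
    obtain ⟨c1, c2⟩ := hcon
    obtain ⟨z, hz, ea, ea'⟩ := hQE.2.2.2 N ρ a ha
    obtain ⟨q, hq, eb, eb'⟩ := hQE.2.2.2 N σ b hb
    have hα0 : α ≠ 0 := by
      rintro rfl
      rw [norm_zero] at hα1
      have : 0 < 1 / A := by positivity
      linarith
    simp only [ea, eb']
    refine hDET hW N ρ σ t z q α hN hρ hσ hρσ hz hq hα0 hσt ?_ ?_
    · intro x hx
      have h3 : ‖(P q).eval x‖ < t / (4 * A) * ‖(Q z).eval x‖ := by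
        by_contra hb2
        apply c2
        refine ⟨x, hx, ?_⟩
        simp only [Prod.swap_prod_mk, ea', eb]
        exact not_lt.1 hb2
      rw [norm_mul]
      calc ‖(P q).eval x‖ < t / (4 * A) * ‖(Q z).eval x‖ := h3
        _ = t / 4 * (1 / A * ‖(Q z).eval x‖) := by field_simp
        _ ≤ t / 4 * (‖α‖ * ‖(Q z).eval x‖) := by gcongr
    · intro c hc hcr
      have h3 : 4 * A / t * ‖(Q q).eval c‖ < ‖(P z).eval c‖ := by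
        by_contra hb2
        apply c1
        refine ⟨c, hc, ?_, ?_⟩
        · simp only [ea, eb']
          exact hcr
        · simp only [ea, eb']
          exact not_lt.1 hb2
      rw [norm_mul]
      calc ‖(Q q).eval c‖ = t / (4 * A) * (4 * A / t * ‖(Q q).eval c‖) := by field_simp
        _ < t / (4 * A) * ‖(P z).eval c‖ := by gcongr
        _ = t / 4 * (1 / A * ‖(P z).eval c‖) := by field_simp
        _ ≤ t / 4 * (‖α‖ * ‖(P z).eval c‖) := by gcongr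
  · intro N hN
    rw [t3_pre hQE hPOLY]
    exact h1 N hN
  · intro N hN
    have e := mm_swap hZN hρ hσ N {x : (Fin N → ℂ) × (Fin N → ℂ) |
      (Phi x.1, Phi x.2) ∈ T1 N t (t / (4 * A))}
    have e2 : {x : (Fin N → ℂ) × (Fin N → ℂ) |
      (Phi x.1, Phi x.2) ∈ Prod.swap ⁻¹' (T1 N t (t / (4 * A)))} = Prod.swap ⁻¹'
      {x : (Fin N → ℂ) × (Fin N → ℂ) | (Phi x.1, Phi x.2) ∈ T1 N t (t / (4 * A))} := rfl
    rw [e2, e, t1_pre hQE hPOLY]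
    refine (h2 N hN).trans (le_of_eq ?_)
    rw [mul_comm (ZN σ N)]

/-- case C -/
theorem caseC (hMEAS : S_MEAS2) (hCOEF2 : COEF2c) (hZN : ZNc) (hW : S_W) (hDET : S_DETC)
    (hSM : SMc) (hLC : LCc) (hQE : S_QE) (hPOLY : S_POLY) {ρ σ A : ℝ} (hρ : 0 < ρ)
    (hρσ : ρ * σ < 1) (hσ1 : 1 < σ) (hA : 1 ≤ A) :
    ∃ K θ : ℝ, 0 < K ∧ 0 < θ ∧ θ < 1 ∧ ∀ N : ℕ, 1 ≤ N → volume (BadP ρ σ A N) ≤
      ENNReal.ofReal (K * θ ^ N) *
        volume (Om 0 ρ N ×ˢ Om 0 σ N : Set ((Fin N → ℂ) × (Fin N → ℂ))) := by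
  have hA0 : 0 < A := by linarith
  have hσ : 0 < σ := by linarith
  have hρσ' : ρ < 1 / σ := by rw [lt_div_iff₀ hσ]; linarith
  have hσi : 1 / σ < 1 := by rw [div_lt_one hσ]; exact hσ1
  obtain ⟨s, hs⟩ : ∃ s, s = (ρ + 1 / σ) / 2 := ⟨_, rfl⟩
  have hs1 : s < 1 := by rw [hs]; linarith
  have hρs : ρ ≤ s := by rw [hs]; linarith
  have hs0 : 0 < s := by linarith
  have hsσ : s * σ < 1 := by
    have : s < 1 / σ := by rw [hs]; linarith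
    rwa [lt_div_iff₀ hσ] at this
  have hκ : 1 ≤ 4 * A / s := by
    rw [one_le_div hs0]; linarith
  obtain ⟨K₁, θ₁, hK₁, hθ₁, hθ₁', h1⟩ := hSM ρ σ s (s / (4 * A)) hρ hσ hρs hs1 hsσ (by positivity)
  obtain ⟨K₂, θ₂, hK₂, hθ₂, hθ₂', h2⟩ := hLC σ ρ (4 * A / s) hσ1 hρ (by linarith) hκ
  refine combine hCOEF2 hZN hρ hσ (fun N => T1 N s (s / (4 * A)))
    (fun N => Prod.swap ⁻¹' (T3 N σ (4 * A / s))) (fun N => (hMEAS N s (s / (4 * A))).1)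
    (fun N => measurable_swap (hMEAS N σ (4 * A / s)).2.2) ?_ hK₁ hθ₁ hθ₁' hK₂ hθ₂ hθ₂' ?_ ?_
  · rintro N hN ⟨a, b⟩ ⟨ha, hb, α, hα1, hα2, hn⟩
    refine ⟨?_, ha, hb⟩
    by_contra hcon
    apply hn
    simp only [Set.mem_union, not_or] at hcon
    obtain ⟨c1, c2⟩ := hcon
    obtain ⟨z, hz, ea, ea'⟩ := hQE.2.2.2 N ρ a ha
    obtain ⟨q, hq, eb, eb'⟩ := hQE.2.2.2 N σ b hb
    have hα0 : α ≠ 0 := by
      rintro rfl
      rw [norm_zero] at hα1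
      have : 0 < 1 / A := by positivity
      linarith
    simp only [ea, eb']
    refine hDET hW N ρ σ s z q α hN hρ hσ hρσ hz hq hα0 hρs ?_ ?_
    · intro w hw
      have h3 : ‖(P z).eval w‖ < s / (4 * A) * ‖(Q q).eval w‖ := by
        by_contra hb2
        apply c1
        refine ⟨w, hw, ?_⟩
        simp only [ea, eb']
        exact not_lt.1 hb2
      rw [norm_mul]
      calc ‖α‖ * ‖(P z).eval w‖ ≤ A * ‖(P z).eval w‖ := by gcongr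
        _ < A * (s / (4 * A) * ‖(Q q).eval w‖) := by gcongr
        _ = s / 4 * ‖(Q q).eval w‖ := by field_simp
    · intro x hx hcr
      have h3 : 4 * A / s * ‖(Q z).eval x‖ < ‖(P q).eval x‖ := by
        by_contra hb2
        apply c2
        refine ⟨x, hx, ?_, ?_⟩
        · simp only [Prod.swap_prod_mk, ea', eb]
          exact hcr
        · simp only [Prod.swap_prod_mk, ea', eb]
          exact not_lt.1 hb2
      rw [norm_mul]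
      calc ‖α‖ * ‖(Q z).eval x‖ ≤ A * ‖(Q z).eval x‖ := by gcongr
        _ = s / 4 * (4 * A / s * ‖(Q z).eval x‖) := by field_simp
        _ < s / 4 * ‖(P q).eval x‖ := by gcongr
  · intro N hN
    rw [t1_pre hQE hPOLY]
    exact h1 N hN
  · intro N hN
    have e := mm_swap hZN hρ hσ N {x : (Fin N → ℂ) × (Fin N → ℂ) |
      (Phi x.1, Phi x.2) ∈ T3 N σ (4 * A / s)}
    have e2 : {x : (Fin N → ℂ) × (Fin N → ℂ) |
      (Phi x.1, Phi x.2) ∈ Prod.swap ⁻¹' (T3 N σ (4 * A / s))} = Prod.swap ⁻¹'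
      {x : (Fin N → ℂ) × (Fin N → ℂ) | (Phi x.1, Phi x.2) ∈ T3 N σ (4 * A / s)} := rfl
    rw [e2, e, t3_pre hQE hPOLY]
    refine (h2 N hN).trans (le_of_eq ?_)
    rw [mul_comm (ZN σ N)]

/-- the main theorem -/
theorem main (hMEAS : S_MEAS2) (hCOEF2 : COEF2c) (hZN : ZNc) (hW : S_W) (hA1 : S_DETA)
    (hB1 : S_DETB) (hC1 : S_DETC)
    (hSM : SMc) (hLC : LCc) (hQE : S_QE) (hPOLY : S_POLY) {ρ σ A : ℝ} (hρ : 0 < ρ) (hσ : 0 < σ)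
    (hρσ : ρ * σ < 1) (hρ1 : ρ ≠ 1) (hσ1 : σ ≠ 1) (hA : 1 ≤ A) :
    ∃ K θ : ℝ, 0 < K ∧ 0 < θ ∧ θ < 1 ∧ ∀ N : ℕ, 1 ≤ N → volume (BadP ρ σ A N) ≤
      ENNReal.ofReal (K * θ ^ N) *
        volume (Om 0 ρ N ×ˢ Om 0 σ N : Set ((Fin N → ℂ) × (Fin N → ℂ))) := by
  rcases lt_or_gt_of_ne hρ1 with h1 | h1
  · rcases lt_or_gt_of_ne hσ1 with h2 | h2
    · exact caseA hMEAS hCOEF2 hZN hW hA1 hSM hQE hPOLY hρ hσ hρσ h1 h2 hA
    · exact caseC hMEAS hCOEF2 hZN hW hC1 hSM hLC hQE hPOLY hρ hρσ h2 hA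
  · exact caseB hMEAS hCOEF2 hZN hW hB1 hSM hLC hQE hPOLY hσ hρσ h1 hA

end Pool.Agent.W751.RV
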